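import Pool.Agent.G02.StmtsS

/-!
# Squad G02, rows FV1 (type V, rank one) and NI1 (nonisotriviality)
-/

set_option autoImplicit false

namespace Pool.Agent.G02.H72

open Polynomial Pool.Agent.NJ Pool.Agent.GT.F Pool.Agent.G02

/-- a prime which divides `τ` exactly once is at most the absolute value of the numerator -/
theorem num_large {τ : ℚ} {N : ℕ} (h : Sp3 τ N) : (N : ℤ) < |τ.num| := by
  obtain ⟨⟨p, hp, hN, hv⟩, -, -⟩ := h
  have hτ : τ ≠ 0 := by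
    rintro rfl
    simp at hv
  have hn : τ.num ≠ 0 := Rat.num_ne_zero.2 hτ
  have := Fact.mk hp
  have hd : (p : ℤ) ∣ τ.num := by
    by_contra hnd
    have h0 : padicValInt p τ.num = 0 := padicValInt.eq_zero_of_not_dvd hnd
    have h1 : padicValRat p τ = padicValInt p τ.num - padicValNat p τ.den := rfl
    rw [hv, h0] at h1
    have h2 : (0 : ℤ) ≤ (padicValNat p τ.den : ℤ) := Int.natCast_nonneg _
    rw [Nat.cast_zero] at h1
    linarith
  have h3 : (p : ℤ) ≤ |τ.num| := Int.le_of_dvd (abs_pos.2 hn) ((dvd_abs _ _).2 hd)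
  have h4 : (N : ℤ) < (p : ℤ) := by exact_mod_cast hN
  omega

/-- parameters outside of a finite set -/
theorem exists_param (hPrb : PrbStmt) (n : ℕ) (Z : Finset ℚ) : ∃ p q r : ℕ, n < p ∧ n < q ∧
    n < r ∧ RB (-1) p q r ∧ Sp3 (-(2 * p / q)) n ∧ (-(2 * p / q) : ℚ) ∉ Z := by
  obtain ⟨p, q, r, hp, hq, hr, hRB, h2, -, -⟩ := hPrb (n + ∑ z ∈ Z, z.num.natAbs)
  have hle : n ≤ n + ∑ z ∈ Z, z.num.natAbs := Nat.le_add_right _ _
  refine ⟨p, q, r, lt_of_le_of_lt hle hp, lt_of_le_of_lt hle hq, lt_of_le_of_lt hle hr, hRB, ?_, ?_⟩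
  · obtain ⟨⟨a1, b1, c1, d1⟩, ⟨a2, b2, c2, d2⟩, ⟨a3, b3, c3, d3⟩⟩ := h2
    exact ⟨⟨a1, b1, lt_of_le_of_lt hle c1, d1⟩, ⟨a2, b2, lt_of_le_of_lt hle c2, d2⟩,
      ⟨a3, b3, lt_of_le_of_lt hle c3, d3⟩⟩
  · intro hZ
    have h3 := num_large h2
    have h4 : (-(2 * p / q) : ℚ).num.natAbs ≤ ∑ z ∈ Z, z.num.natAbs :=
      Finset.single_le_sum (f := fun z : ℚ => z.num.natAbs) (fun _ _ => Nat.zero_le _) hZ
    have h5 : |(-(2 * p / q) : ℚ).num| = ((-(2 * p / q) : ℚ).num.natAbs : ℤ) := Int.abs_eq_natAbs _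
    rw [h5] at h3
    have h6 : n + ∑ z ∈ Z, z.num.natAbs < (-(2 * p / q) : ℚ).num.natAbs := by exact_mod_cast h3
    omega

/-- the product of two different primes is not a square -/
theorem not_sq {p r : ℕ} (hp : p.Prime) (hr : r.Prime) (hne : p ≠ r) :
    ¬ IsSquare ((p : ℚ) * r) := by
  intro h
  have h1 : IsSquare (((p * r : ℕ) : ℚ)) := by
    push_cast
    exact h
  rw [Rat.isSquare_natCast_iff] at h1
  obtain ⟨s, hs⟩ := h1
  have h2 : p ∣ s := by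
    have : p ∣ s * s := ⟨r, hs.symm⟩
    rcases hp.dvd_mul.1 this with h | h <;> exact h
  obtain ⟨u, rfl⟩ := h2
  have h3 : r = p * (u * u) := by
    have : p * r = p * (p * (u * u)) := by rw [hs]; ring
    exact Nat.eq_of_mul_eq_mul_left hp.pos this
  have h4 : p ∣ r := ⟨u * u, h3⟩
  exact hne ((Nat.prime_dvd_prime_iff_eq hp hr).1 h4)

/-- the index of a fibre -/
theorem fibre (hIxq : IxqStmt) (hR1f : R1fStmt) (hScc : SccStmt) (hDlt : DltStmt)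
    (W : WeierstrassCurve ℚ) (e a b : ℚ) (hW : Rt1 W e a b) (p q r : ℕ) (hRB : RB (-1) p q r)
    (μ : ℚ) (hμ : μ ≠ 0) (ha : a = -1 * μ ^ 2 * (-(2 * p / q)))
    (hb : b = (-1 * μ ^ 2) ^ 2 * (-(2 * p / q))) :
    W.Δ ≠ 0 ∧ ¬ IsSquare (a ^ 2 - 4 * b) ∧ Ix W.toAffine.Point (2 * 2 ^ 1) := by
  have hp := hRB.pp
  have hq := hRB.pq
  have hr := hRB.pr
  have hp0 : (p : ℚ) ≠ 0 := by exact_mod_cast hp.ne_zero
  have hq0 : (q : ℚ) ≠ 0 := by exact_mod_cast hq.ne_zero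
  have hr0 : (r : ℚ) ≠ 0 := by exact_mod_cast hr.ne_zero
  have hrr : (r : ℚ) = p + 2 * q := by exact_mod_cast hRB.hr
  have hne : p ≠ r := by
    intro h
    have h1 : (r : ℤ) = p + 2 * q := hRB.hr
    have h2 := hq.pos
    omega
  set τ : ℚ := -(2 * p / q) with hτ
  have hτn : τ < 0 := by
    rw [hτ, neg_lt_zero]
    have h1 : (0 : ℚ) < p := by exact_mod_cast hp.pos
    have h2 : (0 : ℚ) < q := by exact_mod_cast hq.pos
    positivity
  have ha' : a = -τ * μ ^ 2 := by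
    rw [ha]
    ring
  have hb' : b = τ * μ ^ 4 := by
    rw [hb]
    ring
  have hbneg : b < 0 := by
    rw [hb']
    have h1 : 0 < μ ^ 4 := by positivity
    nlinarith
  have hbn : ¬ IsSquare b := by
    rintro ⟨s, hs⟩
    have := mul_self_nonneg s
    linarith
  have hb0 : b ≠ 0 := hbneg.ne
  have hd : a ^ 2 - 4 * b = (τ ^ 2 - 4 * τ) * μ ^ 4 := by
    rw [ha', hb']
    ring
  have hd2 : a ^ 2 - 4 * b = (p * r) * (2 * μ ^ 2 / q) ^ 2 := by
    rw [hd, hτ, hrr]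
    field_simp
    ring
  have hds : ¬ IsSquare (a ^ 2 - 4 * b) := by
    intro h
    have h1 : IsSquare ((p : ℚ) * r) := by
      have h2 : (2 * μ ^ 2 / q : ℚ) ≠ 0 :=
        div_ne_zero (mul_ne_zero (by norm_num) (pow_ne_zero 2 hμ)) hq0
      have h3 : (p : ℚ) * r = (a ^ 2 - 4 * b) / (2 * μ ^ 2 / q) ^ 2 := by
        rw [hd2, mul_div_assoc, div_self (pow_ne_zero 2 h2), mul_one]
      rw [h3]
      obtain ⟨s, hs⟩ := h
      exact ⟨s / (2 * μ ^ 2 / q), by rw [hs]; ring⟩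
    exact not_sq hp hr hne h1
  have hd0 : a ^ 2 - 4 * b ≠ 0 := by
    intro h
    exact hds ⟨0, by rw [h]; norm_num⟩
  refine ⟨?_, hds, ?_⟩
  · rw [hDlt ℚ W e a b hW]
    exact mul_ne_zero (mul_ne_zero (by norm_num) (pow_ne_zero 2 hb0)) hd0
  obtain ⟨hc1, hc2⟩ := hR1f p q r hRB
  have hC : Cl a b ((({1} : Finset ℚ)) : Set ℚ) := by
    have h := (hScc.1 (-τ) τ μ {1} hμ).2 hc1
    rw [← ha', ← hb'] at h
    rw [Finset.coe_singleton]
    exact h
  have hC' : Cl (-2 * a) (a ^ 2 - 4 * b) ((({1, 2 * (q : ℚ) * r} : Finset ℚ)) : Set ℚ) := by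
    have h := (hScc.1 (2 * τ) (τ ^ 2 - 4 * τ) μ {1, 2 * (q : ℚ) * r} hμ).2 hc2
    have e1 : 2 * τ * μ ^ 2 = -2 * a := by rw [ha']; ring
    rw [e1, ← hd] at h
    rw [Finset.coe_insert, Finset.coe_singleton]
    exact h
  have hqr : (2 * (q : ℚ) * r) ≠ 0 := mul_ne_zero (mul_ne_zero two_ne_zero hq0) hr0
  have hqr1 : (1 : ℚ) ≠ 2 * (q : ℚ) * r := by
    intro h
    have h1 : (1 : ℕ) = 2 * q * r := by exact_mod_cast h
    have h2 : 2 ∣ 1 := ⟨q * r, by rw [h1]; ring⟩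
    exact absurd (Nat.le_of_dvd one_pos h2) (by norm_num)
  have hI := hIxq W e a b hW hb0 hbn hds {1} {1, 2 * (q : ℚ) * r}
    (Finset.mem_singleton_self _) (Finset.mem_insert_self _ _)
    (by
      rw [Finset.mem_singleton]
      exact zero_ne_one)
    (by
      rw [Finset.mem_insert, Finset.mem_singleton]
      rintro (h | h)
      · exact zero_ne_one h
      · exact hqr h.symm)
    hC hC'
  rw [Finset.card_pair hqr1, Finset.card_singleton] at hI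
  exact hI

theorem fv1 (hTop : TopStmt) (hIxq : IxqStmt) (hR1f : R1fStmt) (hPrb : PrbStmt)
    (hScc : SccStmt) (hGtb : GtbStmt) (hNsb : NsbStmt) (hMob : MobStmt) (hEvd : EvdStmt)
    (hSpm : SpmStmt) (hGrv : GrvStmt) (hDlt : DltStmt) : Fv1Stmt := by
  intro E e a b x y m hΔ hR hT
  have hlin := hT.lin
  have hw : x - 4 * y ≠ 0 := by
    intro h
    have h1 : x = 4 * y := sub_eq_zero.1 h
    have h2 : IsUnit y := by
      have h3 : y ∣ x := ⟨4, by rw [h1]; ring⟩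
      exact hlin.cop.isUnit_of_dvd' h3 dvd_rfl
    have h4 : y.natDegree = 0 := natDegree_eq_zero_of_isUnit h2
    refine hlin.nc ⟨?_, h4⟩
    rw [h1]
    have h5 : (4 * y : ℚ[X]) = C 4 * y := by rw [← C_ofNat]
    rw [h5]
    exact Nat.le_zero.1 ((natDegree_C_mul_le _ _).trans h4.le)
  have hP : x * y * (x - 4 * y) ≠ 0 := mul_ne_zero (mul_ne_zero hlin.x0 hlin.y0) hw
  set B : Finset ℚ := (x * y * (x - 4 * y)).roots.toFinset with hBdef
  have hB : ∀ c : ℚ, c ∈ B ↔ (x * y * (x - 4 * y)).eval c = 0 := by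
    intro c
    rw [hBdef, Multiset.mem_toFinset, mem_roots hP]
    exact Iff.rfl
  obtain ⟨hb0, hd0, hbs⟩ := hNsb a b x y (-1) m 0 0 hT
  have hrk : ((1 : ℕ) : Cardinal) ≤ rk (gen E) := by
    have h := hGrv E e a b x y m hΔ hR hT
    rw [Nat.cast_one]
    exact h
  have hmain := hTop E e a b B hΔ hR hb0 hd0 hbs (hGtb a b x y (-1) m 0 0 hT B hB) 1 ?_ hrk
  · refine ⟨?_, hmain.2⟩
    rw [hmain.1, Nat.cast_one]
  intro n hfin
  obtain ⟨n', hn'⟩ := hSpm x y hlin hw B hB n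
  obtain ⟨Z, hZ⟩ := hEvd a b x y (-1) m 0 0 hT
  obtain ⟨Z', hZ'⟩ := hMob x y hlin (Z ∪ hfin.toFinset)
  obtain ⟨p, q, r, hp, hq, hr, hRB, hsp, hnot⟩ := exists_param hPrb n' Z'
  obtain ⟨t, htZ, hy, hx⟩ := hZ' _ hnot
  rw [Finset.mem_union, not_or] at htZ
  refine htZ.2 ((Set.Finite.mem_toFinset _).2 ?_)
  obtain ⟨hμ, -, hat, hbt⟩ := hZ t htZ.1 _ hx hy
  rw [pow_zero, pow_zero, mul_one, mul_one] at hat hbt
  have hW : Rt1 (fib E t) (e.eval t) (a.eval t) (b.eval t) := hR.map (evalRingHom t)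
  obtain ⟨h1, h2, h3⟩ := fibre hIxq hR1f hScc hDlt (fib E t) _ _ _ hW p q r hRB _ hμ hat hbt
  refine ⟨h1, ?_, h3, hn' _ t hsp hy hx⟩
  have h4 : (a ^ 2 - 4 * b).eval t = a.eval t ^ 2 - 4 * b.eval t := by
    simp only [eval_sub, eval_pow, eval_mul, eval_ofNat]
  rw [h4]
  exact h2

/-- NI1: nonisotriviality. -/
theorem ni1 (hDlt : DltStmt) : Ni1Stmt := by
  intro E e a b hΔ hni hR c hc
  have hD := hDlt _ E e a b hR
  obtain ⟨h2, h4, -⟩ := hR
  have hc4 : E.c₄ = 16 * (a ^ 2 - 3 * b) := by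
    unfold WeierstrassCurve.c₄
    rw [h2, h4]
    ring
  have hD2 : E.Δ = 16 * C (c - 4) * b ^ 3 := by
    rw [hD, hc, C_sub, C_ofNat]
    ring
  have hc40 : c - 4 ≠ 0 := by
    intro h
    rw [h, C_0] at hD2
    exact hΔ (by rw [hD2]; ring)
  refine hni (256 * (c - 3) ^ 3 / (c - 4)) ?_
  rw [hD2, hc4, hc]
  have h1 : C (256 * (c - 3) ^ 3 / (c - 4)) * (16 * C (c - 4) * b ^ 3) =
      C (256 * (c - 3) ^ 3 / (c - 4) * (c - 4)) * (16 * b ^ 3) := by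
    rw [C_mul]
    ring
  rw [h1, div_mul_cancel₀ _ hc40, C_mul, C_pow, C_sub, C_ofNat, C_ofNat]
  ring

end Pool.Agent.G02.H72
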