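import Pool.Agent.G02.Stmts

/-!
# Squad G02, modules SA1, SA2: recipe S, `m = 3`
-/

set_option autoImplicit false

namespace Pool.Agent.G02.H72

open Pool.Agent.NJ Pool.Agent.G02

lemma dv {a b : ℕ} (ha : a.Prime) (hb : b.Prime) (hab : (a : ℤ) ∣ (b : ℤ)) : a = b :=
  (Nat.prime_dvd_prime_iff_eq ha hb).mp (Int.natCast_dvd_natCast.mp hab)

lemma dv2 {a : ℕ} (ha : a.Prime) (hab : (a : ℤ) ∣ 2) : a = 2 :=
  dv ha Nat.prime_two (by exact_mod_cast hab)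

lemma sym2 {l : ℕ} [Fact l.Prime] (h : l % 8 = 3 ∨ l % 8 = 5) : legendreSym l 2 = -1 := by
  have h2 : l ≠ 2 := by omega
  rw [legendreSym.at_two h2, ZMod.χ₈_nat_eq_if_mod_eight]
  rcases h with h | h
  · rw [if_neg (by omega), if_neg (by omega)]
  · rw [if_neg (by omega), if_neg (by omega)]

lemma symm1 {l : ℕ} [Fact l.Prime] (h : l % 8 = 3) : legendreSym l (-1) = -1 := by
  have h2 : l ≠ 2 := by omega
  rw [legendreSym.at_neg_one h2]
  exact ZMod.χ₄_nat_three_mod_four (by omega)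

lemma symsq {l : ℕ} [Fact l.Prime] {m : ℤ} (h : ¬ (l : ℤ) ∣ m) (x : ℤ) :
    legendreSym l (m ^ 2 * x) = legendreSym l x := by
  have h0 : (m : ZMod l) ≠ 0 := by
    intro h'
    exact h ((ZMod.intCast_zmod_eq_zero_iff_dvd m l).1 h')
  rw [legendreSym.mul, legendreSym.sq_one' l h0, one_mul]

/-- basic data of recipe S for `m = 3` -/
lemma basic {k : ℤ} {p q r : ℕ} (hR : RS 3 k p q r) (hRLS : RlsStmt) (hp : Fact p.Prime)
    (hq : Fact q.Prime) (hr : Fact r.Prime) :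
    r % 8 = 5 ∧ ∃ s : ℤ, (s = 1 ∨ s = -1) ∧ Sym6 k p q r s s (-s) (-s) s (-s) := by
  obtain ⟨h5, s, hs⟩ := hRLS.1 k p q r hR
  exact ⟨h5, s, hs.one, hs⟩

/-- SA1: recipe S, `m = 3`, the curve `S`. -/
theorem sa1 (hSUS : SusStmt) (hRLS : RlsStmt) (hLA : LaStmt) (hLD : LdStmt) (hREA : ReaStmt)
    (hSQF : SQFStmt) : Sa1Stmt := by
  intro k p q r hrF hR hkr d M e N B hQ hpd
  have hpF : Fact p.Prime := ⟨hR.pp⟩
  have hqF : Fact q.Prime := ⟨hR.pq⟩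
  obtain ⟨h5, s, hs1, hs⟩ := basic hR hRLS hpF hqF hrF
  have hrr : (r : ℤ) = q - 2 * p := hR.hr
  have k0 : k ≠ 0 := hR.sqf.ne_zero
  have prp : Prime (p : ℤ) := Nat.prime_iff_prime_int.mp hR.pp
  have prq : Prime (q : ℤ) := Nat.prime_iff_prime_int.mp hR.pq
  have prr : Prime (r : ℤ) := Nat.prime_iff_prime_int.mp hR.pr
  have pp0 : (0 : ℤ) < p := by exact_mod_cast hR.pp.pos
  have qq0 : (0 : ℤ) < q := by exact_mod_cast hR.pq.pos
  have rr0 : (0 : ℤ) < r := by exact_mod_cast hR.pr.pos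
  have ndm : ∀ {x a b : ℤ}, Prime x → ¬ x ∣ a → ¬ x ∣ b → ¬ x ∣ a * b := by
    intro x a b hp ha hb h
    rcases hp.dvd_or_dvd h with h | h
    · exact ha h
    · exact hb h
  have ndp : ∀ {x a : ℤ} {n : ℕ}, Prime x → ¬ x ∣ a → ¬ x ∣ a ^ n := by
    intro x a n hp ha h
    exact ha (hp.dvd_of_dvd_pow h)
  have p2 : ¬ (p : ℤ) ∣ 2 := fun h => hs.p2 (dv2 hR.pp h)
  have r2 : ¬ (r : ℤ) ∣ 2 := fun h => hs.r2 (dv2 hR.pr h)
  have pq : ¬ (p : ℤ) ∣ q := fun h => hs.npq (dv hR.pp hR.pq h)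
  have pr : ¬ (p : ℤ) ∣ r := fun h => hs.npr (dv hR.pp hR.pr h)
  have rp : ¬ (r : ℤ) ∣ p := fun h => hs.npr (dv hR.pr hR.pp h).symm
  have rq : ¬ (r : ℤ) ∣ q := fun h => hs.nqr (dv hR.pr hR.pq h).symm
  have hdisc : (-(4 * k * p ^ 2 * q * r)) ^ 2 - 4 * (2 * k ^ 2 * p ^ 3 * q ^ 3 * r ^ 2)
      = (r : ℤ) ^ 3 * (-(8 * k ^ 2 * p ^ 3 * q ^ 2)) := by
    rw [hrr]; ring
  -- `d > 0`
  have d0 : d ≠ 0 := hQ.sqf.ne_zero
  have dpos : 0 < d := by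
    by_contra hneg
    have hd : d < 0 := lt_of_le_of_ne (not_lt.1 hneg) d0
    have hb : 0 < 2 * k ^ 2 * (p : ℤ) ^ 3 * q ^ 3 * r ^ 2 := by positivity
    have h := (hREA _ _ _ _ _ _ _ hQ hd hb).2
    rw [hdisc] at h
    have : 0 < (r : ℤ) ^ 3 * (8 * k ^ 2 * p ^ 3 * q ^ 2) := by positivity
    linarith
  -- LA at `p`
  have hdp : legendreSym p d = 1 := by
    refine hLA _ _ _ _ _ _ _ hQ p hs.p2 hpd (Or.inr ⟨⟨-(4 * k * q * r), by ring⟩,
      ⟨2 * k ^ 2 * q ^ 3 * r ^ 2, by ring⟩, ?_⟩)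
    intro h
    have e : 2 * k ^ 2 * (p : ℤ) ^ 3 * q ^ 3 * r ^ 2 = p ^ 3 * (2 * k ^ 2 * q ^ 3 * r ^ 2) := by ring
    rw [e, pow_succ, mul_dvd_mul_iff_left (pow_ne_zero 3 prp.ne_zero)] at h
    exact ndm prp (ndm prp (ndm prp p2 (ndp prp hs.kp)) (ndp prp pq)) (ndp prp pr) h
  -- LD at `r`
  have hsym : legendreSym r (2 * (-(4 * k * p ^ 2 * q)) * (-(8 * k ^ 2 * p ^ 3 * q ^ 2))) = -1 := by
    have e : 2 * (-(4 * k * (p : ℤ) ^ 2 * q)) * (-(8 * k ^ 2 * p ^ 3 * q ^ 2))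
        = (8 * k * p ^ 2 * q) ^ 2 * (k * (p * q)) := by ring
    have h8 : ¬ (r : ℤ) ∣ 8 := by
      have := ndp (n := 3) prr r2
      simpa using this
    rw [e, symsq (ndm prr (ndm prr (ndm prr h8 hs.kr) (ndp prr rp)) rq), legendreSym.mul,
      legendreSym.mul, hkr, hs.hrP, hs.hrQ]
    rcases hs1 with rfl | rfl <;> norm_num
  obtain ⟨hrd, hdr⟩ := hLD _ _ _ _ _ _ _ hQ r (-(4 * k * p ^ 2 * q)) (2 * k ^ 2 * p ^ 3 * q ^ 3)
    (-(8 * k ^ 2 * p ^ 3 * q ^ 2)) hs.r2 (by ring) (by ring) hdisc hsym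
  -- the list
  have hsup := (hSUS 3 k p q r hR d M e N B).1 hQ
  obtain ⟨ε, hε, hd⟩ := (hSQF d q r hQ.sqf hR.pq hR.pr hs.q2 hs.r2 hs.nqr).1 (by
    intro l hl hld
    rcases hsup l hl hld with h | h | h | h
    · exact Or.inl h
    · subst h; exact absurd hld hpd
    · exact Or.inr h
    · subst h; exact absurd hld hrd)
  have hε1 : ε = 1 := by
    rcases hε with h | h
    · exact h
    · exfalso
      rcases hd with hd | hd | hd | hd <;> rw [hd, h] at dpos <;> linarith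
  subst hε1
  have h2p : legendreSym p 2 = -1 := sym2 (Or.inl hR.mp)
  have h2r : legendreSym r 2 = -1 := sym2 (Or.inr h5)
  rcases hd with hd | hd | hd | hd
  · exact hd
  · exfalso
    rw [hd, one_mul, h2p] at hdp
    norm_num at hdp
  · exfalso
    rw [hd, one_mul, hs.hpQ] at hdp
    rw [hd, one_mul, hs.hrQ] at hdr
    linarith
  · exfalso
    rw [hd, one_mul, legendreSym.mul, h2p, hs.hpQ] at hdp
    rw [hd, one_mul, legendreSym.mul, h2r, hs.hrQ] at hdr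
    linarith

/-- SA2: recipe S, `m = 3`, the curve `S'`. -/
theorem sa2 (hSUS : SusStmt) (hRLS : RlsStmt) (hLA : LaStmt) (hLD : LdStmt)
    (hSQF : SQFStmt) : Sa2Stmt := by
  intro k p q r hqF hR hk hkq d M e N B hQ hpd
  have hpF : Fact p.Prime := ⟨hR.pp⟩
  have hrF : Fact r.Prime := ⟨hR.pr⟩
  obtain ⟨h5, s, hs1, hs⟩ := basic hR hRLS hpF hqF hrF
  have hrr : (r : ℤ) = q - 2 * p := hR.hr
  have prp : Prime (p : ℤ) := Nat.prime_iff_prime_int.mp hR.pp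
  have prq : Prime (q : ℤ) := Nat.prime_iff_prime_int.mp hR.pq
  have prr : Prime (r : ℤ) := Nat.prime_iff_prime_int.mp hR.pr
  have ndm : ∀ {x a b : ℤ}, Prime x → ¬ x ∣ a → ¬ x ∣ b → ¬ x ∣ a * b := by
    intro x a b hp ha hb h
    rcases hp.dvd_or_dvd h with h | h
    · exact ha h
    · exact hb h
  have ndp : ∀ {x a : ℤ} {n : ℕ}, Prime x → ¬ x ∣ a → ¬ x ∣ a ^ n := by
    intro x a n hp ha h
    exact ha (hp.dvd_of_dvd_pow h)
  have p2 : ¬ (p : ℤ) ∣ 2 := fun h => hs.p2 (dv2 hR.pp h)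
  have q2 : ¬ (q : ℤ) ∣ 2 := fun h => hs.q2 (dv2 hR.pq h)
  have pq : ¬ (p : ℤ) ∣ q := fun h => hs.npq (dv hR.pp hR.pq h)
  have pr : ¬ (p : ℤ) ∣ r := fun h => hs.npr (dv hR.pp hR.pr h)
  have qp : ¬ (q : ℤ) ∣ p := fun h => hs.npq (dv hR.pq hR.pp h).symm
  have qr : ¬ (q : ℤ) ∣ r := fun h => hs.nqr (dv hR.pq hR.pr h)
  have hdisc : (8 * k * (p : ℤ) ^ 2 * q * r) ^ 2 - 4 * (-(8 * k ^ 2 * p ^ 3 * q ^ 2 * r ^ 3))
      = (q : ℤ) ^ 3 * (32 * k ^ 2 * p ^ 3 * r ^ 2) := by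
    rw [hrr]; ring
  -- LA at `p`
  have hdp : legendreSym p d = 1 := by
    refine hLA _ _ _ _ _ _ _ hQ p hs.p2 hpd (Or.inr ⟨⟨8 * k * q * r, by ring⟩,
      ⟨-(8 * k ^ 2 * q ^ 2 * r ^ 3), by ring⟩, ?_⟩)
    intro h
    have e : -(8 * k ^ 2 * (p : ℤ) ^ 3 * q ^ 2 * r ^ 3)
        = p ^ 3 * (-(8 * k ^ 2 * q ^ 2 * r ^ 3)) := by ring
    rw [e, pow_succ, mul_dvd_mul_iff_left (pow_ne_zero 3 prp.ne_zero), dvd_neg] at h
    have h8 : ¬ (p : ℤ) ∣ 8 := by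
      have := ndp (n := 3) prp p2
      simpa using this
    exact ndm prp (ndm prp (ndm prp h8 (ndp prp hs.kp)) (ndp prp pq)) (ndp prp pr) h
  have h2p : legendreSym p 2 = -1 := sym2 (Or.inl hR.mp)
  have h2q : legendreSym q 2 = -1 := sym2 (Or.inl hR.mq)
  have hm1p : legendreSym p (-1) = -1 := symm1 hR.mp
  have hm1q : legendreSym q (-1) = -1 := symm1 hR.mq
  -- LD at `q`
  have hsym : legendreSym q (2 * (8 * k * p ^ 2 * r) * (32 * k ^ 2 * p ^ 3 * r ^ 2)) = -1 := by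
    have e : 2 * (8 * k * (p : ℤ) ^ 2 * r) * (32 * k ^ 2 * p ^ 3 * r ^ 2)
        = (16 * k * p ^ 2 * r) ^ 2 * (2 * (k * (p * r))) := by ring
    have h16 : ¬ (q : ℤ) ∣ 16 := by
      have := ndp (n := 4) prq q2
      simpa using this
    rw [e, symsq (ndm prq (ndm prq (ndm prq h16 hs.kq) (ndp prq qp)) qr), legendreSym.mul,
      legendreSym.mul, legendreSym.mul, h2q, hkq, hs.hqP, hs.hqR]
    rcases hs1 with rfl | rfl <;> norm_num
  obtain ⟨hqd, hdq⟩ := hLD _ _ _ _ _ _ _ hQ q (8 * k * p ^ 2 * r) (-(8 * k ^ 2 * p ^ 3 * r ^ 3))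
    (32 * k ^ 2 * p ^ 3 * r ^ 2) hs.q2 (by ring) (by ring) hdisc hsym
  -- the list
  have hsup := (hSUS 3 k p q r hR d M e N B).2 hQ
  obtain ⟨ε, hε, hd⟩ := (hSQF d r q hQ.sqf hR.pr hR.pq hs.r2 hs.q2 hs.nqr.symm).1 (by
    intro l hl hld
    rcases hsup l hl hld with h | h | h | h
    · exact Or.inl h
    · subst h; exact absurd hld hpd
    · subst h; exact absurd hld hqd
    · exact Or.inr h)
  -- the case `d = -2`
  have hm2 : d ≠ -2 := by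
    intro hd2
    subst hd2
    have hB : B = 4 * k ^ 2 * p ^ 3 * q ^ 2 * r ^ 3 := by
      have := hQ.hb
      linarith
    have hcop := hQ.cop
    have he : Odd e := by
      by_contra h
      rw [Int.not_odd_iff_even] at h
      have h2e : (2 : ℤ) ∣ e := h.two_dvd
      have h2d : (2 : ℤ) ∣ -2 * M := ⟨-M, by ring⟩
      have := hcop.isUnit_of_dvd' h2d h2e
      rw [Int.isUnit_iff] at this
      omega
    have heq := hQ.eq
    rw [hB] at heq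
    have hN : (2 : ℤ) ∣ N := by
      have : (2 : ℤ) ∣ N ^ 2 := ⟨-M ^ 4 + 4 * k * p ^ 2 * q * r * M ^ 2 * e ^ 2
        + 2 * k ^ 2 * p ^ 3 * q ^ 2 * r ^ 3 * e ^ 4, by rw [heq]; ring⟩
      exact Int.prime_two.dvd_of_dvd_pow this
    obtain ⟨N₁, hN₁⟩ := hN
    subst hN₁
    have heq2 : 2 * N₁ ^ 2 = -M ^ 4 + 4 * k * p ^ 2 * q * r * M ^ 2 * e ^ 2
        + 2 * k ^ 2 * p ^ 3 * q ^ 2 * r ^ 3 * e ^ 4 := by linarith
    have hM : (2 : ℤ) ∣ M := by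
      have : (2 : ℤ) ∣ M ^ 4 := ⟨-N₁ ^ 2 + 2 * k * p ^ 2 * q * r * M ^ 2 * e ^ 2
        + k ^ 2 * p ^ 3 * q ^ 2 * r ^ 3 * e ^ 4, by linarith⟩
      exact Int.prime_two.dvd_of_dvd_pow this
    obtain ⟨M₁, hM₁⟩ := hM
    subst hM₁
    have heq3 : N₁ ^ 2 = 8 * (-M₁ ^ 4 + k * p ^ 2 * q * r * M₁ ^ 2 * e ^ 2)
        + k ^ 2 * p ^ 3 * q ^ 2 * r ^ 3 * e ^ 4 := by linarith
    have sq1 : ∀ x : ℤ, Odd x → x ^ 2 % 8 = 1 := by
      intro x hx
      have h : x % 8 = 1 ∨ x % 8 = 3 ∨ x % 8 = 5 ∨ x % 8 = 7 := by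
        rw [Int.odd_iff] at hx; omega
      rw [pow_two, Int.mul_emod]
      rcases h with h | h | h | h <;> rw [h] <;> norm_num
    have op : Odd (p : ℤ) := by rw [Int.odd_iff]; have := hR.mp; omega
    have oq : Odd (q : ℤ) := by rw [Int.odd_iff]; have := hR.mq; omega
    have or' : Odd (r : ℤ) := by rw [Int.odd_iff]; omega
    have hbig : (k ^ 2 * (p : ℤ) ^ 3 * q ^ 2 * r ^ 3 * e ^ 4) % 8 = 7 := by
      have e1 : k ^ 2 * (p : ℤ) ^ 3 * q ^ 2 * r ^ 3 * e ^ 4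
          = (k * p * q * r * e ^ 2) ^ 2 * (p * r) := by ring
      have o1 : Odd (k * p * q * r * e ^ 2) := by
        exact (((hk.mul op).mul oq).mul or').mul he.pow
      have e2 : ((p : ℤ) * r) % 8 = 7 := by
        have hp8 : (p : ℤ) % 8 = 3 := by have := hR.mp; omega
        have hr8 : (r : ℤ) % 8 = 5 := by omega
        rw [Int.mul_emod, hp8, hr8]; norm_num
      rw [e1, Int.mul_emod, sq1 _ o1, e2]; norm_num
    have h7 : N₁ ^ 2 % 8 = 7 := by rw [heq3]; omega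
    rcases Int.even_or_odd N₁ with h | h
    · obtain ⟨c, hc⟩ := h
      have : N₁ ^ 2 = 4 * c ^ 2 := by rw [hc]; ring
      omega
    · have := sq1 _ h
      omega
  rcases hd with hd | hd | hd | hd
  · rcases hε with h | h
    · rw [hd, h]
    · exfalso
      rw [hd, h, hm1p] at hdp
      norm_num at hdp
  · exfalso
    rcases hε with h | h
    · rw [hd, h, one_mul, h2p] at hdp
      norm_num at hdp
    · exact hm2 (by rw [hd, h]; norm_num)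
  · exfalso
    rcases hε with h | h
    · rw [hd, h, one_mul, hs.hpR] at hdp
      rw [hd, h, one_mul, hs.hqR] at hdq
      linarith
    · rw [hd, h, legendreSym.mul, hm1p, hs.hpR] at hdp
      rw [hd, h, legendreSym.mul, hm1q, hs.hqR] at hdq
      linarith
  · exfalso
    rcases hε with h | h
    · rw [hd, h, one_mul, legendreSym.mul, h2p, hs.hpR] at hdp
      rw [hd, h, one_mul, legendreSym.mul, h2q, hs.hqR] at hdq
      linarith
    · rw [hd, h, legendreSym.mul, legendreSym.mul, hm1p, h2p, hs.hpR] at hdp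
      rw [hd, h, legendreSym.mul, legendreSym.mul, hm1q, h2q, hs.hqR] at hdq
      linarith

end Pool.Agent.G02.H72
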